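import Pool.Agent.V8H76.BT.Odd
import Pool.Agent.V8H15.BT.EDefs

/-!
# Vanishing of the exterior powers and the antisymmetriser
-/

set_option autoImplicit false
set_option linter.unusedSectionVars false

open CategoryTheory Limits MonoidalCategory Module Equiv
open Pool.Agent.Y112.SR Pool.Agent.Y112.KD Pool.Agent.N64.AF Pool.Agent.R905
open Pool.Agent.V8H87.GG

namespace Pool.Agent.V8H76.BT

universe v u w

section

variable {C : Type u} [Category.{v} C] [MonoidalCategory C] [SymmetricCategory C]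
  [Preadditive C] [Linear ℚ C] [MonoidalPreadditive C] [MonoidalLinear ℚ C]
  [RightRigidCategory C] {K : Type w} [Field K] (R : SuperRealisation C K) (hU : UnitQ C)

lemma sg_eq {n : ℕ} (σ : Perm (Fin n)) : Pool.Agent.V8H15.BT.sg σ = Pool.Agent.V8H87.GG.sg σ := rfl

/-- The exchanges of neighbouring factors are given by odd permutations. -/
lemma isSwap_perm_sg (M : C) {n : ℕ} {s : tp M n ⟶ tp M n} (hs : IsSwap M n s) :
    ∃ σ : Perm (Fin n), s = ((tower R hU M).th n σ : End (tp M n)) ∧
      Pool.Agent.V8H15.BT.sg σ = -1 := by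
  induction hs with
  | last n =>
    exact ⟨swap 0 1, ((tower R hU M).th_swap_one n).symm, Pool.Agent.V8H15.BT.sg_swap (by simp)⟩
  | lift n s _ ih =>
    obtain ⟨σ, rfl, hσ⟩ := ih
    refine ⟨ex σ, ((tower R hU M).th_ex σ).symm, ?_⟩
    rw [sg_eq] at hσ ⊢
    rw [sg_ex, hσ]

/-- **Goal E76a**: the exterior power vanishes if and only if the antisymmetriser vanishes. -/
theorem powerVanishes_neg_one_iff (M : C) (N : ℕ) :
    PowerVanishes (-1) (𝟙 M) N ↔ Pool.Agent.V8H15.BT.Q (tower R hU M) N = 0 := by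
  classical
  constructor
  · intro h
    have h1 := h (tp M N) ((Pool.Agent.V8H15.BT.Q (tower R hU M) N : End (tp M N)) :
      tp M N ⟶ tp M N) (by
        intro s hs
        obtain ⟨τ, rfl, hτ⟩ := isSwap_perm_sg R hU M hs
        change Pool.Agent.V8H15.BT.Q (tower R hU M) N * (tower R hU M).th N τ =
          (-1 : ℚ) • Pool.Agent.V8H15.BT.Q (tower R hU M) N
        unfold Pool.Agent.V8H15.BT.Q
        rw [Finset.sum_mul, Finset.smul_sum]
        refine Fintype.sum_equiv (Equiv.mulRight τ) _ _ (fun σ => ?_)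
        rw [Equiv.coe_mulRight, smul_mul_assoc, ← map_mul, Pool.Agent.V8H15.BT.sg_mul, hτ,
          smul_smul]
        congr 1
        ring)
    rw [tpm_id, Category.id_comp] at h1
    exact h1
  · intro h
    refine powerVanishes_neg R hU (e := (1 : End M)) ?_
    have h1 : Cw ((tower R hU M).th N) (fun _ : Fin N => ()) =
        Pool.Agent.V8H15.BT.Q (tower R hU M) N := by
      unfold Cw Pool.Agent.V8H15.BT.Q
      refine Finset.sum_congr rfl (fun σ _ => ?_)
      rw [if_pos (show Fx (fun _ : Fin N => ()) σ from fun _ => rfl), sg_eq]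
    rw [h1, h, zero_mul]

include R hU in
/-- **Goal E76b**: an object with purely even realisation is Kimura finite if and only if some exterior
power vanishes. -/
theorem kimura_even_iff [IsIdempotentComplete C] {M : C} (hM : R.par M = 𝟙 _) :
    IsKimuraFinite M ↔ ∃ N, PowerVanishes (-1) (𝟙 M) N := by
  constructor
  · intro h
    obtain ⟨n, hn⟩ := h.summand R hU (𝟙 M) (𝟙 M) (Category.comp_id _) (d := 1) (Or.inl rfl)
      (by rw [hM]; simp)
    exact ⟨n, (powerVanishes_iff (by norm_num) (𝟙 M) (𝟙 M) (Category.comp_id _)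
      (Category.comp_id _) n).2 hn⟩
  · rintro ⟨N, hN⟩
    refine ⟨𝟙 M, Category.comp_id _, ⟨N, hN⟩, 1, ?_⟩
    intro Z g _
    have h0 : tpm (𝟙 M - 𝟙 M : M ⟶ M) 1 = 0 := by
      rw [sub_self]
      change tpm (0 : M ⟶ M) 0 ⊗ₘ (0 : M ⟶ M) = 0
      rw [MonoidalCategory.tensorHom_def, MonoidalPreadditive.whiskerLeft_zero, comp_zero]
    rw [h0, zero_comp]

end

end Pool.Agent.V8H76.BT
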