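import Pool.Agent.V8H87.GG.Kim
import Pool.Agent.R905.Div

/-!
# Vanishing of the symmetric powers and the symmetriser
-/

set_option autoImplicit false
set_option linter.unusedSectionVars false

open CategoryTheory Limits MonoidalCategory Module Equiv
open Pool.Agent.Y112.SR Pool.Agent.Y112.KD Pool.Agent.N64.AF Pool.Agent.R905
open Pool.Agent.V8H87.GG

namespace Pool.Agent.V8H76.BT

universe v u w

section

variable {C : Type u} [Category.{v} C] [MonoidalCategory C] [SymmetricCategory C]
  [Preadditive C] [Linear ℚ C] [MonoidalPreadditive C] [MonoidalLinear ℚ C]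
  [RightRigidCategory C] {K : Type w} [Field K] (R : SuperRealisation C K) (hU : UnitQ C)

/-- The exchanges of neighbouring factors are given by permutations. -/
lemma isSwap_perm (M : C) {n : ℕ} {s : tp M n ⟶ tp M n} (hs : IsSwap M n s) :
    ∃ σ : Perm (Fin n), s = ((tower R hU M).th n σ : End (tp M n)) := by
  induction hs with
  | last n => exact ⟨swap 0 1, ((tower R hU M).th_swap_one n).symm⟩
  | lift n s _ ih =>
    obtain ⟨σ, rfl⟩ := ih
    exact ⟨ex σ, ((tower R hU M).th_ex σ).symm⟩

/-- **Goal 3a**: the symmetric power vanishes if and only if the symmetriser vanishes. -/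
theorem powerVanishes_one_iff (M : C) (N : ℕ) :
    PowerVanishes 1 (𝟙 M) N ↔ ∑ σ : Perm (Fin N), (tower R hU M).th N σ = 0 := by
  classical
  constructor
  · intro h
    have h1 := h (tp M N) ((∑ σ : Perm (Fin N), (tower R hU M).th N σ : End (tp M N)) :
      tp M N ⟶ tp M N) (by
        intro s hs
        obtain ⟨τ, rfl⟩ := isSwap_perm R hU M hs
        rw [one_smul]
        change (∑ σ : Perm (Fin N), (tower R hU M).th N σ) * (tower R hU M).th N τ = _
        rw [Finset.sum_mul]
        simp only [← map_mul]
        exact Fintype.sum_equiv (Equiv.mulRight τ) _ _ (fun _ => rfl))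
    rw [tpm_id, Category.id_comp] at h1
    exact h1
  · intro h
    refine powerVanishes_pos R hU (e := (1 : End M)) ?_
    have h1 : Rw ((tower R hU M).th N) (fun _ : Fin N => ()) =
        ∑ σ : Perm (Fin N), (tower R hU M).th N σ := by
      unfold Rw
      refine Finset.sum_congr rfl (fun σ _ => ?_)
      rw [if_pos (show Fx (fun _ : Fin N => ()) σ from fun _ => rfl)]
    rw [h1, h, zero_mul]

include R hU in
/-- **Goal 3b**: an object with purely odd realisation is Kimura finite if and only if some symmetric power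
vanishes. -/
theorem kimura_odd_iff [IsIdempotentComplete C] {M : C} (hM : R.par M = -𝟙 _) :
    IsKimuraFinite M ↔ ∃ N, PowerVanishes 1 (𝟙 M) N := by
  constructor
  · intro h
    obtain ⟨n, hn⟩ := h.summand R hU (𝟙 M) (𝟙 M) (Category.comp_id _) (d := -1) (Or.inr rfl)
      (by rw [hM]; simp)
    rw [neg_neg] at hn
    exact ⟨n, (powerVanishes_iff (by norm_num) (𝟙 M) (𝟙 M) (Category.comp_id _)
      (Category.comp_id _) n).2 hn⟩
  · rintro ⟨N, hN⟩
    refine ⟨0, by simp, ⟨1, ?_⟩, N, ?_⟩
    · intro Z g _
      have : tpm (0 : M ⟶ M) 1 = 0 := by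
        change tpm (0 : M ⟶ M) 0 ⊗ₘ (0 : M ⟶ M) = 0
        rw [MonoidalCategory.tensorHom_def, MonoidalPreadditive.whiskerLeft_zero, comp_zero]
      rw [this, zero_comp]
    · rw [sub_zero]
      exact hN

end

end Pool.Agent.V8H76.BT
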